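import Mathlib.Logic.Relation
import Pool.Agent.MP_1a6d78_lc.ED.Defs

/-! Layered grid graphs; reachability. -/

namespace Pool.Agent.MP_1a6d78_lc.LG

/-- Reachability in the layered grid graph on the `n × n` grid that has the edge from `(i, j)` to
`(i, j + 1)` iff `E i j` and the edge from `(i, j)` to `(i + 1, j)` iff `S i j`. -/
def Reach {n : ℕ} (E S : Fin n → Fin n → Bool) (s t : Fin n × Fin n) : Prop :=
  Relation.ReflTransGen (fun a b : Fin n × Fin n =>
    (E a.1 a.2 = true ∧ b.1 = a.1 ∧ b.2.val = a.2.val + 1) ∨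
      (S a.1 a.2 = true ∧ b.1.val = a.1.val + 1 ∧ b.2 = a.2)) s t

/-- A table of bits, row by row. -/
def bits {n : ℕ} (E : Fin n → Fin n → Bool) : List ℕ :=
  (List.ofFn fun i => List.ofFn fun j => if E i j then 1 else 0).flatten

/-- The code of an instance: `n`, the coordinates of `s` and `t`, the two tables, in unary. -/
def code {n : ℕ} (E S : Fin n → Fin n → Bool) (s t : Fin n × Fin n) : List Bool :=
  ED.unary ([n, s.1.val, s.2.val, t.1.val, t.2.val] ++ bits E ++ bits S)

end Pool.Agent.MP_1a6d78_lc.LG
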