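import Pool.Agent.MP_1a6d78_lc.PR.Basic
import Pool.Agent.MP_1a6d78_lc.LG.Defs

/-! PROJECT LG: the algorithm and the module statements.  Blueprint: LG1a6d78_BLUEPRINT.md. -/

namespace Pool.Agent.MP_1a6d78_lc.LG

open Classical ED PR

noncomputable section

/-! ### Lattice graphs.  `d` is a vertical orientation, `s` a side. -/

structure Lat where
  N : ℕ
  row : Bool → ℕ → ℤ
  pos : Bool → ℕ → ℤ
  E : Bool → ℕ → ℕ → Prop
  pt : ℕ → ℕ → ℕ
  prot : Bool → ℕ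

namespace Lat

variable (G : Lat) (A : ℕ → Prop)

/-- `A` is the set of alive vertices. -/
structure Ok : Prop where
  rneg : ∀ d v, G.row (!d) v = -G.row d v
  pneg : ∀ s v, G.pos (!s) v = -G.pos s v
  eneg : ∀ d u v, G.E (!d) u v ↔ G.E d v u
  edge : ∀ d s u v, G.E d u v → G.row d v = G.row d u + 1 ∧
    (G.pos s v = G.pos s u + 1 ∨ G.pos s u = G.pos s v + 1)
  par : ∀ d s v, A v → (G.row d v + G.pos s v) % 2 = 0
  inj : ∀ d s u v, A u → A v → G.row d u = G.row d v → G.pos s u = G.pos s v → u = v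
  zero : ¬A 0
  lt : ∀ v, A v → v < G.N
  pth : ∀ s z, A z → ∃ k < 4, G.row true (G.pt z k) = G.row true z ∧
    G.pos s (G.pt z k) = G.pos s z + 1
  ptv : ∀ d z, A z → ∃ k < 4, G.row d (G.pt z k) = G.row d z + 1 ∧
    G.pos true (G.pt z k) = G.pos true z
  prot : ∀ d u, ¬G.E d u (G.prot d)

/-- `u` is a parent of `v`. -/
def Par (d : Bool) (u v : ℕ) : Prop := A u ∧ A v ∧ G.E d u v

def Anc (d : Bool) : ℕ → ℕ → Prop := Relation.ReflTransGen (G.Par A d)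

def Src (d : Bool) (v : ℕ) : Prop := A v ∧ ∀ u, ¬G.Par A d u v

def Crit (v : ℕ) : Prop := ∃ d, G.Src A d v

/-- `u` is the leftmost parent of `v`. -/
def Ls (d s : Bool) (u v : ℕ) : Prop :=
  G.Par A d u v ∧ ∀ u', G.Par A d u' v → G.pos s u ≤ G.pos s u'

/-- `Lp A d s u v`: `u` lies on the leftmost upward path that starts at `v`. -/
def Lp (d s : Bool) : ℕ → ℕ → Prop := Relation.ReflTransGen (G.Ls A d s)

/-- `x` is the only source above `v`. -/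
def Dx (d : Bool) (x v : ℕ) : Prop := A v ∧ ∀ y, G.Src A d y → G.Anc A d y v → y = x

/-- `u` is the nearest alive vertex to the left of the point `π`. -/
def IsNb (s : Bool) (π u : ℕ) : Prop :=
  A u ∧ G.row true u = G.row true π ∧ G.pos s u < G.pos s π ∧
    ∀ u', A u' → G.row true u' = G.row true π → G.pos s u' < G.pos s π → G.pos s u' ≤ G.pos s u

/-- The number of unprotected sources and sinks. -/
def meas : ℕ :=
  cnt G.N (fun v => G.Src A true v ∧ v ≠ G.prot true) +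
    cnt G.N fun v => G.Src A false v ∧ v ≠ G.prot false

def Con : Prop := A (G.prot true) ∧ G.Anc A true (G.prot true) (G.prot false)

end Lat

/-! ### Entries, lists, oracles -/

def host (e : ℕ) : ℕ := e / 16

def prb (e : ℕ) : ℕ := e / 4 % 4

def side (e : ℕ) : Bool := decide (e / 2 % 2 = 1)

def dr (e : ℕ) : Bool := decide (e % 2 = 1)

def mk (z k : ℕ) (s d : Bool) : ℕ := 16 * z + 4 * k + 2 * s.toNat + d.toNat

def tw (e : ℕ) (d : Bool) : ℕ := mk (host e) (prb e) (side e) d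

def op (e : ℕ) : ℕ := mk (host e) (prb e) (!side e) (dr e)

/-- The linked list that starts at `a` (0 is the end mark). -/
inductive Lnk (nx : ℕ → ℕ) : ℕ → List ℕ → Prop
  | nil : Lnk nx 0 []
  | cons {a : ℕ} {L : List ℕ} : a ≠ 0 → Lnk nx (nx a) L → Lnk nx a (a :: L)

/-- The first value that is not zero. -/
def fnz (c : ℕ) (f : ℕ → ℕ) : ℕ := itr (fun i a => if a = 0 then f i else a) 0 c

/-- A value that is not zero and maximises `key`. -/
def best (c : ℕ) (f : ℕ → ℕ) (key : ℕ → ℤ) : ℕ :=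
  itr (fun i a => if f i ≠ 0 ∧ (a = 0 ∨ key a < key (f i)) then f i else a) 0 c

structure Or where
  al : ℕ → Prop
  At : Bool → Bool → ℕ → ℕ → ℕ
  En : Bool → Bool → ℕ → ℕ
  Nb : Bool → ℕ → ℕ
  fi : Bool → ℕ → ℕ
  nx : ℕ → ℕ

namespace Or

variable (G : Lat) (O : Or)

def nb (e : ℕ) : ℕ := O.Nb (side e) (G.pt (host e) (prb e))

def own (e : ℕ) : ℕ := O.En (dr e) (!side e) (O.nb G e)

/-- `e` is a valid entry of direction `d` owned by `x`. -/
def Own (d : Bool) (x e : ℕ) : Prop :=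
  G.Crit O.al (host e) ∧ O.nb G e ≠ 0 ∧ dr e = d ∧ O.own G e = x

/-- The path and neighbour oracles are right. -/
structure Geo : Prop where
  ok : G.Ok O.al
  at1 : ∀ d s v r, O.al v → O.At d s v r ≠ 0 →
    G.Lp O.al d s (O.At d s v r) v ∧ G.row d (O.At d s v r) = G.row d r
  at0 : ∀ d s v r u, O.al v → G.Lp O.al d s u v → G.row d u = G.row d r → O.At d s v r = u
  en : ∀ d s v, O.al v → G.Lp O.al d s (O.En d s v) v ∧ G.Src O.al d (O.En d s v)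
  nb1 : ∀ s π, O.Nb s π ≠ 0 → G.IsNb O.al s π (O.Nb s π)
  nb0 : ∀ s π u, G.IsNb O.al s π u → O.Nb s π = u

structure Good : Prop extends O.Geo G where
  lk : ∀ d x, G.Src O.al d x →
    ∃ L, Lnk O.nx (O.fi d x) L ∧ L.Nodup ∧ ∀ e, e ∈ L ↔ O.Own G d x e

/-- The measure, read from the oracles. -/
def ms : ℕ :=
  cnt G.N (fun v => (O.al v ∧ O.En true true v = v) ∧ v ≠ G.prot true) +
    cnt G.N fun v => (O.al v ∧ O.En false true v = v) ∧ v ≠ G.prot false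

/-- Arguments and values are cut off at `β`. -/
def clip (β : ℕ) : Or where
  al v := O.al (min β v)
  At d s v r := min β (O.At d s (min β v) (min β r))
  En d s v := min β (O.En d s (min β v))
  Nb s v := min β (O.Nb s (min β v))
  fi d v := min β (O.fi d (min β v))
  nx v := min β (O.nx (min β v))

end Or

/-! ### Relinking -/

structure Rl where
  c : ℕ
  M : ℕ
  nx : ℕ → ℕ
  stays : ℕ → Prop
  moved : ℕ → Prop
  mem : ℕ → ℕ → ℕ
  anc : ℕ → ℕ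

namespace Rl

variable (Z : Rl)

def grp (a i0 : ℕ) : ℕ := fnz Z.c fun i => if i0 ≤ i then Z.mem a i else 0

def skp (b : ℕ) : ℕ :=
  itr (fun _ b => if b ≠ 0 ∧ ¬Z.stays b ∧ Z.grp b 0 = 0 then Z.nx b else b) b Z.M

def skip (b : ℕ) : ℕ := if Z.skp b = 0 ∨ Z.stays (Z.skp b) then Z.skp b else Z.grp (Z.skp b) 0

def cont (a i : ℕ) : ℕ := if Z.grp a i = 0 then Z.skip (Z.nx a) else Z.grp a i

def nx1 (e : ℕ) : ℕ :=
  if Z.moved e then Z.cont (Z.anc e) (fnz Z.c fun i => if Z.mem (Z.anc e) i = e then i + 1 else 0)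
  else Z.cont e 0

end Rl

/-! ### One round -/

structure Rd where
  G : Lat
  c : ℕ
  O : Or
  d : Bool
  col : ℕ → Prop

namespace Rd

variable (R : Rd)

def nb (e : ℕ) : ℕ := R.O.nb R.G e

def own (e : ℕ) : ℕ := R.O.own R.G e

def rt (v : ℕ) : ℕ := R.O.En R.d true v

def ls (x i : ℕ) : ℕ := itr (fun _ a => if a = 0 then 0 else R.O.nx a) (R.O.fi R.d x) i

/-- The vertices in conflict with `x`. -/
def cf (x j : ℕ) : ℕ :=
  if j % 33 = 32 then R.own (op (R.ls x (j / 33)))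
  else if j % 33 % 2 = 0 then R.rt (host (R.O.nx (16 * host (R.ls x (j / 33)) + j % 33 / 2)))
  else R.rt (R.nb (R.O.nx (16 * host (R.ls x (j / 33)) + j % 33 / 2)))

def short (x : ℕ) : Prop := (R.O.al x ∧ R.rt x = x) ∧ x ≠ R.G.prot R.d ∧ R.ls x R.c = 0

def sel (x : ℕ) : Prop :=
  R.short x ∧ R.col x ∧ ∀ j < 33 * R.c, R.cf x j ≠ x → ¬R.col (R.cf x j)

def cand (s : Bool) (x i : ℕ) : ℕ :=
  if R.ls x i ≠ 0 ∧ side (R.ls x i) = s then R.nb (op (R.ls x i)) else 0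

def low (s : Bool) (v w : ℕ) : ℕ :=
  if R.G.row R.d v ≤ R.G.row R.d (R.O.En (!R.d) s w) then v else R.O.En (!R.d) s w

/-- The upward path of `v` meets the downward path of `w`. -/
def meets (s : Bool) (v w : ℕ) : Prop :=
  R.O.At R.d s v w ≠ 0 ∧ R.G.pos s (R.O.At R.d s v w) ≤ R.G.pos s w ∧
    R.G.pos s (R.O.At (!R.d) s w (R.low s v w)) ≤ R.G.pos s (R.O.At R.d s v (R.low s v w))

def out (s : Bool) (x : ℕ) : ℕ → ℕ → Prop
  | 0, _ => False
  | t + 1, v => R.O.En R.d s v ≠ x ∨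
      ∃ i < R.c, R.cand s x i ≠ 0 ∧ R.meets s v (R.cand s x i) ∧ out s x t (R.cand s x i)

def wall (s : Bool) (x i : ℕ) : ℕ :=
  if R.out s x (R.c + 1) (R.cand s x i) then R.cand s x i else 0

def dead (v : ℕ) : Prop := R.sel (R.rt v) ∧ ¬R.out true (R.rt v) (R.c + 1) v

def al (v : ℕ) : Prop := R.O.al v ∧ ¬R.dead v

/-- Wall `i` of the root of `p`, if it meets the path of `p` and starts above the meeting point. -/
def gw (s : Bool) (p i : ℕ) : ℕ :=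
  if R.wall s (R.O.En R.d s p) i ≠ 0 ∧ R.meets s p (R.wall s (R.O.En R.d s p) i) ∧
    R.dead (R.O.At R.d s p (R.wall s (R.O.En R.d s p) i)) then R.wall s (R.O.En R.d s p) i else 0

def jump (s : Bool) (p : ℕ) : ℕ :=
  best R.c (fun i => if ∀ j < R.c, R.gw s p j ≠ 0 →
      R.G.row R.d (R.gw s p j) ≤ R.G.row R.d (R.gw s p i) →
        R.G.pos s (R.gw s p i) ≤ R.G.pos s (R.O.At (!R.d) s (R.gw s p j) (R.gw s p i))
    then R.gw s p i else 0) (R.G.row R.d)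

def en1 (e s : Bool) (v : ℕ) : ℕ :=
  if e = R.d then
    R.O.En e s (itr (fun _ p => if R.sel (R.O.En e s p) then R.jump s p else p) v R.c)
  else R.O.En e s v

def stop (s : Bool) (v r : ℕ) : ℕ :=
  itr (fun _ p => if R.sel (R.O.En R.d s p) ∧ R.G.row R.d r ≤ R.G.row R.d (R.jump s p)
    then R.jump s p else p) v R.c

def at1 (e s : Bool) (v r : ℕ) : ℕ :=
  if e = R.d then
    if R.O.At e s (R.stop s v r) r ≠ 0 ∧ ¬R.dead (R.O.At e s (R.stop s v r) r) then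
      R.O.At e s (R.stop s v r) r
    else if R.sel (R.O.En e s (R.stop s v r)) ∧ R.G.row e r ≤ R.G.row e v then
      R.O.At (!e) s (R.jump s (R.stop s v r)) r
    else 0
  else R.O.At e s v r

def nb1 (s : Bool) (π : ℕ) : ℕ :=
  if R.O.Nb s π = 0 ∨ ¬R.dead (R.O.Nb s π) then R.O.Nb s π
  else best R.c (fun i => if R.wall (!s) (R.rt (R.O.Nb s π)) i ≠ 0 ∧
      R.G.pos s (R.O.At (!R.d) (!s) (R.wall (!s) (R.rt (R.O.Nb s π)) i) π) < R.G.pos s π
    then R.O.At (!R.d) (!s) (R.wall (!s) (R.rt (R.O.Nb s π)) i) π else 0) (R.G.pos s)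

/-- The new geometry (without the lists). -/
def geo : Or := ⟨R.al, R.at1, R.en1, R.nb1, R.O.fi, R.O.nx⟩

def kil (e : ℕ) : ℕ := R.own (tw e R.d)

def moved (e : ℕ) : Prop := R.sel (R.kil e) ∧ (dr e = R.d ∨ R.dead (R.nb e))

def stays (e : ℕ) : Prop := R.al (host e) ∧ ¬R.moved e

def anc (e : ℕ) : ℕ :=
  fnz R.c fun i => if R.cand (!side e) (R.kil e) i ≠ 0 ∧
      R.own (tw (op (R.ls (R.kil e) i)) (dr e)) = R.geo.own R.G e
    then tw (op (R.ls (R.kil e) i)) (dr e) else 0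

def mem (a i : ℕ) : ℕ :=
  if R.sel (R.kil (op a)) ∧ R.ls (R.kil (op a)) i ≠ 0 ∧
      R.al (host (R.ls (R.kil (op a)) i)) ∧
      R.geo.nb R.G (tw (R.ls (R.kil (op a)) i) (dr a)) ≠ 0 ∧
      R.moved (tw (R.ls (R.kil (op a)) i) (dr a)) ∧ R.anc (tw (R.ls (R.kil (op a)) i) (dr a)) = a
    then tw (R.ls (R.kil (op a)) i) (dr a) else 0

def rl : Rl := ⟨R.c, 16 * R.c, R.O.nx, R.stays, R.moved, R.mem, R.anc⟩

/-- The oracles of the next level. -/
def step : Or := ⟨R.al, R.at1, R.en1, R.nb1, fun e x => R.rl.skip (R.O.fi e x), R.rl.nx1⟩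

abbrev D (x v : ℕ) : Prop := R.G.Dx R.O.al R.d x v

abbrev Good : Prop := R.O.Good R.G

end Rd

/-! ### Level 0, colours, levels -/

namespace Lat

variable (G : Lat) (A : ℕ → Prop)

def stp (d s : Bool) (v : ℕ) : ℕ :=
  lst G.N fun u => G.Par A d u v ∧ ∀ u' < G.N, G.Par A d u' v → G.pos s u ≤ G.pos s u'

def wk (d s : Bool) (t v : ℕ) : ℕ :=
  it G.N (fun a => if G.stp A d s a = 0 then a else G.stp A d s a) t v

def geo0 : Or where
  al := A
  At d s v r := lst G.N fun u => (∃ t < G.N, G.wk A d s t v = u) ∧ G.row d u = G.row d r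
  En d s v := G.wk A d s G.N v
  Nb s π := lst G.N fun u => A u ∧ G.row true u = G.row true π ∧ G.pos s u < G.pos s π ∧
    ∀ u' < G.N, A u' → G.row true u' = G.row true π → G.pos s u' < G.pos s π →
      G.pos s u' ≤ G.pos s u
  fi _ _ := 0
  nx _ := 0

def own0 (d : Bool) (x e : ℕ) : Prop :=
  (A (host e) ∧ (G.stp A true true (host e) = 0 ∨ G.stp A false true (host e) = 0)) ∧
    (G.geo0 A).nb G e ≠ 0 ∧ dr e = d ∧ (G.geo0 A).own G e = x

def lev0 : Or :=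
  { G.geo0 A with
    fi := fun d x => lst (16 * G.N) (G.own0 A d x)
    nx := fun e => lst (16 * G.N) fun f => e < f ∧ G.own0 A (dr e) ((G.geo0 A).own G e) f }

end Lat

/-- The colour class of the seed `q`. -/
def colq (N K q y : ℕ) : Prop :=
  y < N ∧ q / (2 * N + 3) % (2 * N + 3) * y % (q % (2 * N + 3)) % K = q / (2 * N + 3) / (2 * N + 3)

/-- The number of seeds. -/
def nq (N : ℕ) : ℕ := 2 * (8448 * (2 * N + 3) ^ 2)

def rd (G : Lat) (O : Or) (q : ℕ) : Rd := ⟨G, 64, O, dr q, colq G.N 8448 (q / 2)⟩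

def lev (G : Lat) (A : ℕ → Prop) (β : ℕ) (σ : ℕ → ℕ) : ℕ → Or
  | 0 => (G.lev0 A).clip β
  | j + 1 => (rd G (lev G A β σ j) (σ j)).step.clip β

/-- The seeds of the first `j` rounds. -/
def sds (G : Lat) (A : ℕ → Prop) (β : ℕ) : ℕ → ℕ → ℕ
  | 0 => fun _ => 0
  | j + 1 => Function.update (sds G A β j) j
      (amin (nq G.N) fun q => (lev G A β (Function.update (sds G A β j) j q) (j + 1)).ms G)

/-! ### Statements: geometry -/

/-- BAS -/
structure BasK (G : Lat) (A : ℕ → Prop) : Prop where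
  ind : ∀ (d : Bool) (P : ℕ → Prop),
    (∀ v, A v → (∀ u, A u → G.row d u < G.row d v → P u) → P v) → ∀ v, A v → P v
  req : ∀ d u v, G.row d u = G.row d v ↔ G.row true u = G.row true v
  peq : ∀ s u v, G.pos s u = G.pos s v ↔ G.pos true u = G.pos true v
  parN : ∀ d u v, G.Par A (!d) u v ↔ G.Par A d v u
  ancN : ∀ d u v, G.Anc A (!d) u v ↔ G.Anc A d v u
  ancA : ∀ {d u v}, G.Anc A d u v → (A u ↔ A v)
  ancR : ∀ {d u v}, G.Anc A d u v → G.row d u ≤ G.row d v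
  ancE : ∀ {d u v}, G.Anc A d u v → G.row d v ≤ G.row d u → u = v
  srcE : ∀ {d u v}, G.Anc A d u v → G.Src A d v → u = v
  lsU : ∀ {d s u u' v}, G.Ls A d s u v → G.Ls A d s u' v → u = u'
  lsX : ∀ {d u v} s, G.Par A d u v → ∃ u', G.Ls A d s u' v
  lpA : ∀ {d s u v}, G.Lp A d s u v → G.Anc A d u v
  lin : ∀ {d s u u' v}, G.Lp A d s u v → G.Lp A d s u' v → G.row d u ≤ G.row d u' →
    G.Lp A d s u u'
  lpU : ∀ {d s u u' v}, G.Lp A d s u v → G.Lp A d s u' v → G.row d u = G.row d u' → u = u'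
  mid : ∀ {d s u v} y, G.Lp A d s u v → G.row d u ≤ y → y ≤ G.row d v →
    ∃ q, G.Lp A d s u q ∧ G.Lp A d s q v ∧ G.row d q = y
  left : ∀ {d s u u' v}, A v → G.Lp A d s u v → G.Anc A d u' v → G.row d u = G.row d u' →
    G.pos s u ≤ G.pos s u'
  endX : ∀ d s v, A v → ∃ y, G.Lp A d s y v ∧ G.Src A d y
  endU : ∀ {d s y y' v}, G.Lp A d s y v → G.Lp A d s y' v → G.Src A d y → G.Src A d y' → y = y'
  cross : ∀ {d s v w a b a' b'}, A v → A w → G.Lp A d s a v → G.Lp A (!d) s b w →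
    G.Lp A d s a' v → G.Lp A (!d) s b' w → G.row d a = G.row d b → G.row d a' = G.row d b' →
    G.row d a ≤ G.row d a' → G.pos s a ≤ G.pos s b → G.pos s b' ≤ G.pos s a' →
      ∃ u, G.Lp A d s u v ∧ G.Lp A (!d) s u w
  nbX : ∀ {s π u}, A u → G.row true u = G.row true π → G.pos s u < G.pos s π →
    ∃ n, G.IsNb A s π n
  nbU : ∀ {s π u u'}, G.IsNb A s π u → G.IsNb A s π u' → u = u'
  nbN : ∀ {s u v}, A v → G.IsNb A s v u → G.IsNb A (!s) u v
  two : ∀ {d s u u' v}, G.Par A d u v → G.Par A d u' v → G.pos s u < G.pos s u' →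
    G.IsNb A s u' u ∧ G.Ls A d s u v ∧ G.Ls A (!d) s v u' ∧ ∀ w, G.Par A d w v → w = u ∨ w = u'
  dxA : ∀ {d x u v}, G.Dx A d x v → G.Anc A d u v → G.Dx A d x u
  dxS : ∀ {d x}, G.Src A d x → G.Dx A d x x
  dxE : ∀ {d s x y v}, G.Dx A d x v → G.Lp A d s y v → G.Src A d y → y = x
  dxP : ∀ {d x u v}, G.Par A d u v → (∀ w, G.Par A d w v → G.Dx A d x w) → G.Dx A d x v

def BasS : Prop := ∀ G A, Lat.Ok G A → BasK G A

/-- WALL -/
def WallS : Prop :=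
  ∀ (G : Lat) (A A' : ℕ → Prop) (d s : Bool) (x : ℕ), G.Ok A → G.Src A d x →
    (∀ v, A' v → A v ∧ ¬G.Dx A d x v) →
    (∀ l n, A n → G.IsNb A s n l → G.Dx A d x l → ¬G.Dx A d x n → A' n) →
    ∀ l n, A n → G.IsNb A s n l → G.Dx A d x l → ¬G.Dx A d x n →
      ∃ z k l' w, k < 4 ∧ G.Crit A z ∧ G.IsNb A s (G.pt z k) l' ∧ G.Dx A d x l' ∧
        G.IsNb A (!s) (G.pt z k) w ∧ A' w ∧ G.Lp A (!d) s n w ∧ G.Lp A' d s w n

/-- ENT: entry codes and the constant loops. -/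
structure EntK : Prop where
  host_mk : ∀ z k s d, k < 4 → host (mk z k s d) = z
  prb_mk : ∀ z k s d, k < 4 → prb (mk z k s d) = k
  side_mk : ∀ z k s d, side (mk z k s d) = s
  dr_mk : ∀ z k s d, dr (mk z k s d) = d
  mk_eq : ∀ e, mk (host e) (prb e) (side e) (dr e) = e
  prb_lt : ∀ e, prb e < 4
  fnz0 : ∀ c f, fnz c f = 0 ↔ ∀ i < c, f i = 0
  fnz1 : ∀ c f, fnz c f ≠ 0 → ∃ i < c, fnz c f = f i ∧ ∀ j < i, f j = 0
  best1 : ∀ c f key, best c f key ≠ 0 → ∃ i < c, best c f key = f i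
  best2 : ∀ c f key i, i < c → f i ≠ 0 → best c f key ≠ 0 ∧ key (f i) ≤ key (best c f key)

/-- SEL: lists of short sources, candidates, meeting paths. -/
structure SelK (R : Rd) : Prop where
  src : ∀ v, R.O.al v → ∀ d s, (R.O.En d s v = v ↔ R.G.Src R.O.al d v)
  ssrc : ∀ x, R.short x → R.G.Src R.O.al R.d x
  ls1 : ∀ x i, R.G.Src R.O.al R.d x → R.ls x i ≠ 0 → R.O.Own R.G R.d x (R.ls x i)
  ls2 : ∀ x e, R.short x → R.O.Own R.G R.d x e → e ≠ 0 ∧ ∃ i < R.c, R.ls x i = e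
  ls3 : ∀ x i j, R.G.Src R.O.al R.d x → R.ls x i ≠ 0 → R.ls x i = R.ls x j → i = j
  cand : ∀ s x i, R.G.Src R.O.al R.d x → R.cand s x i ≠ 0 →
    R.O.al (R.cand s x i) ∧ R.G.row R.d x ≤ R.G.row R.d (R.cand s x i)
  conf : ∀ s x i, R.sel x → i < R.c → R.cand s x i ≠ 0 →
    R.sel (R.O.En R.d s (R.cand s x i)) → R.O.En R.d s (R.cand s x i) = x
  wall : ∀ (A' : ℕ → Prop) s x, R.short x → (∀ v, A' v → R.O.al v ∧ ¬R.D x v) →
    (∀ l n, R.O.al n → R.G.IsNb R.O.al s n l → R.D x l → ¬R.D x n → A' n) →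
    ∀ l n, R.O.al n → R.G.IsNb R.O.al s n l → R.D x l → ¬R.D x n →
      ∃ i < R.c, A' (R.cand s x i) ∧ R.G.Lp R.O.al (!R.d) s n (R.cand s x i) ∧
        R.G.Lp A' R.d s (R.cand s x i) n
  met1 : ∀ s v w, R.O.al v → R.O.al w → R.meets s v w →
    ∃ u, R.G.Lp R.O.al R.d s u v ∧ R.G.Lp R.O.al (!R.d) s u w
  met2 : ∀ s v w u a, R.O.al v → R.O.al w → R.G.Lp R.O.al R.d s u v →
    R.G.Lp R.O.al (!R.d) s u w → R.G.Lp R.O.al R.d s a v → R.G.row R.d a ≤ R.G.row R.d w →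
      R.meets s v w

def SelS : Prop := ∀ R : Rd, R.Good → SelK R

/-- OUT: the new alive set. -/
structure OutK (R : Rd) : Prop where
  out : ∀ s x v, R.short x → R.O.al v → (R.out s x (R.c + 1) v ↔ ¬R.D x v)
  dead : ∀ v, R.O.al v → (R.dead v ↔ ∃ x, R.sel x ∧ R.D x v)
  ok : R.G.Ok R.al
  adj : ∀ s x l n, R.sel x → R.O.al n → R.G.IsNb R.O.al s n l → R.D x l → ¬R.D x n → R.al n
  wall : ∀ s x l n, R.sel x → R.O.al n → R.G.IsNb R.O.al s n l → R.D x l → ¬R.D x n →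
    ∃ i < R.c, R.wall s x i ≠ 0 ∧ R.G.Lp R.O.al (!R.d) s n (R.wall s x i) ∧
      R.G.Lp R.al R.d s (R.wall s x i) n
  wal : ∀ s x i, R.sel x → i < R.c → R.wall s x i ≠ 0 →
    R.wall s x i = R.cand s x i ∧ R.al (R.wall s x i)
  down : ∀ u v, R.al u → R.G.Anc R.O.al R.d u v → R.al v ∧ R.G.Anc R.al R.d u v
  src : ∀ e v, R.G.Src R.al e v ↔ R.G.Src R.O.al e v ∧ R.al v
  lpD : ∀ s u v, R.al v → (R.G.Lp R.al (!R.d) s u v ↔ R.G.Lp R.O.al (!R.d) s u v)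
  lpU : ∀ s u v, R.al u → R.G.Lp R.O.al R.d s u v → R.G.Lp R.al R.d s u v
  root : ∀ y, R.G.Src R.O.al R.d y → (R.al y ↔ ¬R.sel y)

def OutS : Prop := ∀ R : Rd, R.Good → SelK R → OutK R

/-- JUMP -/
def JumpK (R : Rd) : Prop :=
  ∀ s p, R.al p → R.sel (R.O.En R.d s p) →
    (∃ i < R.c, R.jump s p = R.cand s (R.O.En R.d s p) i) ∧ R.al (R.jump s p) ∧
      R.G.row R.d (R.jump s p) < R.G.row R.d p ∧ R.G.Lp R.al R.d s (R.jump s p) p ∧
      ∀ q, R.G.Lp R.al R.d s (R.jump s p) q → R.G.Lp R.al R.d s q p →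
        R.G.Lp R.O.al R.d s q p ∨ R.G.Lp R.O.al (!R.d) s q (R.jump s p)

def JumpS : Prop := ∀ R : Rd, R.Good → SelK R → OutK R → JumpK R

/-- PATH: the new paths. -/
structure PathK (R : Rd) : Prop where
  at1 : ∀ d s v r, R.al v → R.at1 d s v r ≠ 0 →
    R.G.Lp R.al d s (R.at1 d s v r) v ∧ R.G.row d (R.at1 d s v r) = R.G.row d r
  at0 : ∀ d s v r u, R.al v → R.G.Lp R.al d s u v → R.G.row d u = R.G.row d r →
    R.at1 d s v r = u
  en : ∀ d s v, R.al v → R.G.Lp R.al d s (R.en1 d s v) v ∧ R.G.Src R.al d (R.en1 d s v)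

def PathS : Prop := ∀ R : Rd, R.Good → SelK R → OutK R → JumpK R → PathK R

/-- NB: the new neighbours. -/
structure NbK (R : Rd) : Prop where
  nb1 : ∀ s π, R.nb1 s π ≠ 0 → R.G.IsNb R.al s π (R.nb1 s π)
  nb0 : ∀ s π u, R.G.IsNb R.al s π u → R.nb1 s π = u
  wall : ∀ s π q n x, R.G.IsNb R.O.al s π q → R.G.IsNb R.al s π n → R.sel x → R.D x q →
    ∃ i < R.c, R.wall (!s) x i ≠ 0 ∧ R.G.Lp R.O.al (!R.d) (!s) n (R.wall (!s) x i) ∧
      R.G.Lp R.al R.d (!s) (R.wall (!s) x i) n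

def NbS : Prop := ∀ R : Rd, R.Good → SelK R → OutK R → NbK R

/-! ### Statements: lists -/

/-- ANC: a moved entry has an anchor. -/
def AncK (R : Rd) : Prop :=
  ∀ e y dd, R.geo.Own R.G dd y e → R.moved e → R.anc e ≠ 0

def AncS : Prop := ∀ R : Rd, R.Good → SelK R → OutK R → JumpK R → NbK R → R.geo.Geo R.G → AncK R

/-- OWN: the new entries of a surviving owner. -/
structure OwnK (R : Rd) : Prop where
  mov : ∀ a i, R.mem a i ≠ 0 → R.moved (R.mem a i) ∧ R.anc (R.mem a i) = a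
  inj : ∀ a i j, R.mem a i ≠ 0 → R.mem a i = R.mem a j → i = j
  own : ∀ dd y e, R.geo.Own R.G dd y e ↔ (R.O.Own R.G dd y e ∧ R.stays e) ∨
    ∃ a, R.O.Own R.G dd y a ∧ ∃ i < R.c, R.mem a i = e ∧ e ≠ 0

def OwnS : Prop := ∀ R : Rd, R.Good → SelK R → OutK R → R.geo.Geo R.G → AncK R → OwnK R

/-- RUN: runs of removed entries are short. -/
def RunK (R : Rd) : Prop :=
  ∀ dd y L, R.al y → Lnk R.O.nx (R.O.fi dd y) L → L.Nodup → (∀ e ∈ L, R.O.Own R.G dd y e) →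
    ∀ m, m <:+: L → (∀ e ∈ m, ¬R.stays e) → m.length ≤ 16 * R.c

def RunS : Prop := ∀ R : Rd, R.Good → SelK R → OutK R → RunK R

/-- LIST: relinking. -/
def ListS : Prop :=
  ∀ (Z : Rl) (a : ℕ) (L : List ℕ), Lnk Z.nx a L → L.Nodup →
    (∀ a i, Z.mem a i ≠ 0 → Z.moved (Z.mem a i) ∧ Z.anc (Z.mem a i) = a) →
    (∀ a i j, Z.mem a i ≠ 0 → Z.mem a i = Z.mem a j → i = j) → (∀ e, Z.stays e → ¬Z.moved e) →
    (∀ m, m <:+: L → (∀ e ∈ m, ¬Z.stays e) → m.length ≤ Z.M) →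
      ∃ L', Lnk Z.nx1 (Z.skip a) L' ∧ L'.Nodup ∧
        ∀ e, e ∈ L' ↔ (e ∈ L ∧ Z.stays e) ∨ ∃ a ∈ L, ∃ i < Z.c, Z.mem a i = e ∧ e ≠ 0

/-- STEP -/
def StepS : Prop := ∀ R : Rd, R.Good → R.step.Good R.G

/-! ### Statements: progress -/

/-- CNT: many short sources. -/
def CntS : Prop :=
  ∀ (G : Lat) (O : Or), O.Good G →
    ∃ d, ∀ col, G.meas O.al ≤ 4 * cnt G.N (Rd.short ⟨G, 64, O, d, col⟩)

/-- HASH -/
def HashS : Prop :=
  ∀ (N Δ : ℕ) (X : ℕ → Prop) (cf : ℕ → ℕ → ℕ), 0 < Δ → ∃ q < 4 * Δ * (2 * N + 3) ^ 2,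
    cnt N X ≤ 8 * Δ * cnt N fun x => X x ∧ colq N (4 * Δ) q x ∧
      ∀ j < Δ, cf x j ≠ x → ¬colq N (4 * Δ) q (cf x j)

/-- INV -/
structure InvK (R : Rd) : Prop where
  dec : R.G.meas R.al + cnt R.G.N R.sel ≤ R.G.meas R.O.al
  con : R.G.Con R.al ↔ R.G.Con R.O.al
  ms : R.O.ms R.G = R.G.meas R.O.al
  fin : R.G.meas R.O.al = 0 → (R.O.al (R.G.prot false) ↔ R.G.Con R.O.al)

def InvS : Prop := ∀ R : Rd, R.Good → SelK R → OutK R → InvK R

/-- PROG -/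
def ProgS : Prop :=
  ∀ (G : Lat) (O : Or), O.Good G →
    ∃ q < nq G.N, G.meas (rd G O q).al * 67584 ≤ G.meas O.al * 67583

/-- Rows and positions do not see the cut-off. -/
def Lat.Cut (G : Lat) (β : ℕ) : Prop :=
  16 * G.N ≤ β ∧ ∀ d v, G.row d (min β v) = G.row d v ∧ G.pos d (min β v) = G.pos d v

/-- CLIP -/
def ClipS : Prop :=
  ∀ (G : Lat) (O : Or) (β : ℕ), O.Good G → G.Cut β → (O.clip β).Good G ∧ (O.clip β).al = O.al

/-- L0G -/
def LevS : Prop := ∀ (G : Lat) (A : ℕ → Prop), G.Ok A → (G.lev0 A).Good G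

/-- MAIN -/
def MainS : Prop :=
  ∀ (G : Lat) (A : ℕ → Prop) (β L : ℕ), G.Ok A → G.Cut β → 2 * G.N < 2 ^ L →
    ((lev G A β (sds G A β (67584 * L)) (67584 * L)).al (G.prot false) ↔ G.Con A)

end

end Pool.Agent.MP_1a6d78_lc.LG
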